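import Pool.Agent.Z15.Q.Stm

/-!
Extension of rational forms and descent (task Q_EXT of helper15).
-/

set_option autoImplicit false

namespace Pool.Agent.T2h66.Q15

open Module Pool.Agent.Y90 Pool.Agent.W546.GHC Pool.Agent.H204R3.CM Pool.Agent.Z15.Q

section general

variable {R M N ι : Type*} [CommRing R] [AddCommGroup M] [Module R M] [AddCommGroup N] [Module R N]
  [Fintype ι]

/-- determinants of coordinates -/
noncomputable def dd {i : ℕ} (b : Basis ι R M) (J : Fin i → ι) : M [⋀^Fin i]→ₗ[R] R :=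
  MultilinearMap.alternatization
    ((MultilinearMap.mkPiAlgebra R (Fin i) R).compLinearMap fun m => b.coord (J m))

omit [Fintype ι] in
theorem dd_apply {i : ℕ} (b : Basis ι R M) (J : Fin i → ι) (v : Fin i → M) :
    dd b J v = ∑ σ : Equiv.Perm (Fin i), ((Equiv.Perm.sign σ : ℤ) : R) *
      ∏ m, b.repr (v (σ m)) (J m) := by
  rw [dd, MultilinearMap.alternatization_apply]
  refine Finset.sum_congr rfl fun σ _ => ?_
  rw [MultilinearMap.domDomCongr_apply, MultilinearMap.compLinearMap_apply,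
    MultilinearMap.mkPiAlgebra_apply, Units.smul_def, zsmul_eq_mul]
  rfl

theorem expand {i : ℕ} (b : Basis ι R M) (ψ : M [⋀^Fin i]→ₗ[R] N) (v : Fin i → M) :
    ψ v = ∑ J : Fin i → ι, (∏ m, b.repr (v m) (J m)) • ψ (fun m => b (J m)) := by
  have h1 : v = fun m => ∑ k, b.repr (v m) k • b k := funext fun m => (b.sum_repr (v m)).symm
  conv_lhs => rw [h1]
  change ψ.toMultilinearMap _ = _
  classical
  rw [MultilinearMap.map_sum]
  refine Finset.sum_congr rfl fun J _ => ?_
  rw [MultilinearMap.map_smul_univ]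
  rfl

theorem key {i : ℕ} (b : Basis ι R M) (ψ : M [⋀^Fin i]→ₗ[R] N) (v : Fin i → M) :
    (i.factorial : R) • ψ v = ∑ J : Fin i → ι, dd b J v • ψ (fun m => b (J m)) := by
  simp only [dd_apply, Finset.sum_smul]
  rw [Finset.sum_comm]
  have h1 : ∀ σ : Equiv.Perm (Fin i), ∑ J : Fin i → ι, (((Equiv.Perm.sign σ : ℤ) : R) *
      ∏ m, b.repr (v (σ m)) (J m)) • ψ (fun m => b (J m)) = ψ v := by
    intro σ
    simp only [mul_smul]
    rw [← Finset.smul_sum, ← expand b ψ (fun m => v (σ m))]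
    have h2 : ψ (fun m => v (σ m)) = Equiv.Perm.sign σ • ψ v := ψ.map_perm v σ
    rw [h2]
    rcases Int.units_eq_one_or (Equiv.Perm.sign σ) with h5 | h5
    · rw [h5]
      simp
    · rw [h5]
      simp
  rw [Finset.sum_congr rfl fun σ _ => h1 σ, Finset.sum_const, Finset.card_univ, Fintype.card_perm,
    Fintype.card_fin, Nat.cast_smul_eq_nsmul]

end general

theorem per_smul (X : AV) (q : ℚ) (v : X.H) : X.per (q • v) = (q : ℝ) • X.per v := by
  have h := map_ratCast_smul X.per ℚ ℝ q v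
  rwa [Rat.cast_id] at h

/-- a rational basis of the homology -/
noncomputable def hb (X : AV) : Basis (Fin (finrank ℚ X.H)) ℚ X.H := finBasis ℚ X.H

theorem span_hb (X : AV) : ⊤ ≤ Submodule.span ℝ (Set.range fun k => X.per (hb X k)) := by
  rw [← X.span, Submodule.span_le]
  rintro _ ⟨v, rfl⟩
  rw [← (hb X).sum_repr v, map_sum]
  refine Submodule.sum_mem _ fun k _ => ?_
  rw [per_smul]
  exact Submodule.smul_mem _ _ (Submodule.subset_span ⟨k, rfl⟩)

theorem card_hb (X : AV) : Fintype.card (Fin (finrank ℚ X.H)) = finrank ℝ X.T := by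
  rw [Fintype.card_fin, X.rank, finrank_real_of_complex]

/-- the real basis of the tangent space -/
noncomputable def tb (X : AV) : Basis (Fin (finrank ℚ X.H)) ℝ X.T :=
  basisOfTopLeSpanOfCardEqFinrank (fun k => X.per (hb X k)) (span_hb X) (card_hb X)

theorem tb_apply (X : AV) (k : Fin (finrank ℚ X.H)) : tb X k = X.per (hb X k) := by
  rw [tb, coe_basisOfTopLeSpanOfCardEqFinrank]

theorem tb_repr (X : AV) (v : X.H) (k : Fin (finrank ℚ X.H)) :
    (tb X).repr (X.per v) k = (((hb X).repr v k : ℚ) : ℝ) := by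
  have h1 : X.per v = ∑ l, (((hb X).repr v l : ℚ) : ℝ) • tb X l := by
    conv_lhs => rw [← (hb X).sum_repr v, map_sum]
    exact Finset.sum_congr rfl fun l _ => by rw [per_smul, tb_apply]
  rw [h1, (tb X).repr_sum_self]

theorem dd_per (X : AV) {i : ℕ} (J : Fin i → Fin (finrank ℚ X.H)) (w : Fin i → X.H) :
    dd (tb X) J (fun l => X.per (w l)) = ((dd (hb X) J w : ℚ) : ℝ) := by
  rw [dd_apply, dd_apply]
  push_cast
  refine Finset.sum_congr rfl fun σ _ => ?_
  congr 1
  exact Finset.prod_congr rfl fun m _ => tb_repr X _ _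

/-- the extension of a determinant -/
noncomputable def DC (X : AV) {i : ℕ} (J : Fin i → Fin (finrank ℚ X.H)) : X.T [⋀^Fin i]→ₗ[ℝ] ℂ :=
  (Algebra.linearMap ℝ ℂ).compAlternatingMap (dd (tb X) J)

theorem DC_apply (X : AV) {i : ℕ} (J : Fin i → Fin (finrank ℚ X.H)) (u : Fin i → X.T) :
    DC X J u = ((dd (tb X) J u : ℝ) : ℂ) := rfl

theorem DC_per (X : AV) {i : ℕ} (J : Fin i → Fin (finrank ℚ X.H)) (w : Fin i → X.H) :
    DC X J (fun l => X.per (w l)) = ((dd (hb X) J w : ℚ) : ℂ) := by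
  rw [DC_apply, dd_per, Complex.ofReal_ratCast]

theorem sum_app {R M N : Type*} [CommRing R] [AddCommGroup M] [Module R M] [AddCommGroup N]
    [Module R N] {α : Type*} {i : ℕ} (s : Finset α)
    (F : α → M [⋀^Fin i]→ₗ[R] N) (u : Fin i → M) : (∑ a ∈ s, F a) u = ∑ a ∈ s, F a u := by
  classical
  induction s using Finset.induction_on with
  | empty => simp
  | insert a s ha ih => rw [Finset.sum_insert ha, Finset.sum_insert ha, AlternatingMap.add_apply, ih]

theorem facQ (i : ℕ) : (i.factorial : ℚ) ≠ 0 := Nat.cast_ne_zero.2 (Nat.factorial_ne_zero _)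
theorem facC (i : ℕ) : (i.factorial : ℂ) ≠ 0 := Nat.cast_ne_zero.2 (Nat.factorial_ne_zero _)

theorem f_eq (X : AV) {i : ℕ} (f : X.H [⋀^Fin i]→ₗ[ℚ] ℚ) :
    f = ∑ J : Fin i → Fin (finrank ℚ X.H),
      ((i.factorial : ℚ)⁻¹ * f (fun m => hb X (J m))) • dd (hb X) J := by
  ext w
  have h1 := key (hb X) f w
  have h2 : (∑ J : Fin i → Fin (finrank ℚ X.H),
      ((i.factorial : ℚ)⁻¹ * f (fun m => hb X (J m))) • dd (hb X) J) w =
      ∑ J : Fin i → Fin (finrank ℚ X.H),
      ((i.factorial : ℚ)⁻¹ * f (fun m => hb X (J m))) * dd (hb X) J w := by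
    rw [sum_app]
    rfl
  rw [h2]
  apply mul_left_cancel₀ (facQ i)
  rw [smul_eq_mul] at h1
  rw [h1, Finset.mul_sum]
  refine Finset.sum_congr rfl fun J _ => ?_
  rw [smul_eq_mul, mul_assoc, ← mul_assoc, mul_inv_cancel₀ (facQ i), one_mul, mul_comm]

theorem psi_eq (X : AV) {i : ℕ} (ψ : X.T [⋀^Fin i]→ₗ[ℝ] ℂ) :
    ψ = ∑ J : Fin i → Fin (finrank ℚ X.H),
      ((i.factorial : ℂ)⁻¹ * ψ (fun m => X.per (hb X (J m)))) • DC X J := by
  ext u
  have h1 := key (tb X) ψ u
  rw [sum_app]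
  apply mul_left_cancel₀ (facC i)
  have h2 : ((i.factorial : ℝ) : ℝ) • ψ u = (i.factorial : ℂ) * ψ u := by
    rw [Complex.real_smul]
    push_cast
    rfl
  rw [← h2, h1, Finset.mul_sum]
  refine Finset.sum_congr rfl fun J _ => ?_
  rw [AlternatingMap.smul_apply, DC_apply, smul_eq_mul, mul_assoc, ← mul_assoc,
    mul_inv_cancel₀ (facC i), one_mul, Complex.real_smul, mul_comm]
  simp only [tb_apply]

theorem t_Q_EXT : Q_EXT := by
  intro X i
  have hu : ∀ φ φ' : X.T [⋀^Fin i]→ₗ[ℝ] ℂ, (∀ w : Fin i → X.H, φ (fun l => X.per (w l)) =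
      φ' (fun l => X.per (w l))) → φ = φ' := by
    intro φ φ' h
    rw [psi_eq X φ, psi_eq X φ']
    refine Finset.sum_congr rfl fun J _ => ?_
    rw [h]
  refine ⟨?_, hu, ?_, ?_⟩
  · intro f
    refine ⟨∑ J : Fin i → Fin (finrank ℚ X.H),
      ((((i.factorial : ℚ)⁻¹ * f (fun m => hb X (J m)) : ℚ)) : ℂ) • DC X J, fun w => ?_⟩
    rw [sum_app]
    conv_rhs => rw [f_eq X f]
    rw [sum_app]
    push_cast
    refine Finset.sum_congr rfl fun J _ => ?_
    rw [AlternatingMap.smul_apply, AlternatingMap.smul_apply, DC_per, smul_eq_mul, smul_eq_mul]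
    push_cast
    rfl
  · rw [eq_top_iff]
    intro φ _
    rw [psi_eq X φ]
    refine Submodule.sum_mem _ fun J _ => Submodule.smul_mem _ _ (Submodule.subset_span ?_)
    exact ⟨dd (hb X) J, Submodule.mem_top, fun w => DC_per X J w⟩
  · intro V f φ hf hφ
    by_contra hV
    obtain ⟨lam, h1, h2⟩ := Submodule.exists_le_ker_of_notMem hV
    -- the extended functional
    have h3 : ∀ (ψ : X.T [⋀^Fin i]→ₗ[ℝ] ℂ) (g : X.H [⋀^Fin i]→ₗ[ℚ] ℚ),
        (∀ w : Fin i → X.H, ψ (fun l => X.per (w l)) = ((g w : ℚ) : ℂ)) →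
        ∑ J : Fin i → Fin (finrank ℚ X.H), (((i.factorial : ℚ)⁻¹ * lam (dd (hb X) J) : ℚ) : ℂ) *
          ψ (fun m => X.per (hb X (J m))) = ((lam g : ℚ) : ℂ) := by
      intro ψ g h
      conv_rhs => rw [f_eq X g, map_sum]
      push_cast
      refine Finset.sum_congr rfl fun J _ => ?_
      rw [h, map_smul, smul_eq_mul]
      push_cast
      ring
    have h4 : ∑ J : Fin i → Fin (finrank ℚ X.H), (((i.factorial : ℚ)⁻¹ * lam (dd (hb X) J) : ℚ) : ℂ) *
          φ (fun m => X.per (hb X (J m))) = 0 := by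
      clear hf
      unfold complexify at hφ
      induction hφ using Submodule.span_induction with
      | mem ψ hψ =>
        obtain ⟨g, hg, h⟩ := hψ
        rw [h3 ψ g h]
        have h5 : lam g = 0 := LinearMap.mem_ker.1 (h2 hg)
        rw [h5, Rat.cast_zero]
      | zero => simp
      | add a b _ _ ha hb' =>
        simp only [AlternatingMap.add_apply, mul_add, Finset.sum_add_distrib]
        rw [ha, hb', add_zero]
      | smul c a _ ha =>
        simp only [AlternatingMap.smul_apply, smul_eq_mul]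
        rw [← mul_zero c, ← ha, Finset.mul_sum]
        exact Finset.sum_congr rfl fun J _ => by ring
    rw [h3 φ f hf] at h4
    exact h1 (by exact_mod_cast h4)

end Pool.Agent.T2h66.Q15
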