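import Pool.Agent.Z15.Q.Stm

/-!
The symmetrized forms are combinations of classes of divisors (task Q_DIV of helper15).
-/

set_option autoImplicit false
set_option linter.unusedSimpArgs false

namespace Pool.Agent.T2h66.Q15.DIV

open Module Pool.Agent.Y90 Pool.Agent.W546.GHC Pool.Agent.H204R3.CM Pool.Agent.Z15.Q

/-- the alternating form `E(r v, w) - E(r w, v)` -/
noncomputable def BB {H : Type*} [AddCommGroup H] [Module ℚ H] (E : H → H → ℚ)
    (hE : ∃ B : H →ₗ[ℚ] H →ₗ[ℚ] ℚ, ∀ v w, B v w = E v w) (r : H →ₗ[ℚ] H) : H [⋀^Fin 2]→ₗ[ℚ] ℚ where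
  toFun v := E (r (v 0)) (v 1) - E (r (v 1)) (v 0)
  map_update_add' := by
    intro _ v j x y
    obtain ⟨B, hB⟩ := hE
    simp only [← hB]
    fin_cases j
    · simp [Function.update, map_add]
      ring
    · simp [Function.update, map_add]
      ring
  map_update_smul' := by
    intro _ v j c x
    obtain ⟨B, hB⟩ := hE
    simp only [← hB]
    fin_cases j
    · simp [Function.update, map_smul]
      ring
    · simp [Function.update, map_smul]
      ring
  map_eq_zero_of_eq' := by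
    intro v j k h hjk
    fin_cases j <;> fin_cases k
    · exact absurd rfl hjk
    · change v 0 = v 1 at h
      change E (r (v 0)) (v 1) - E (r (v 1)) (v 0) = 0
      rw [h, sub_self]
    · change v 1 = v 0 at h
      change E (r (v 0)) (v 1) - E (r (v 1)) (v 0) = 0
      rw [h, sub_self]
    · exact absurd rfl hjk

theorem BB_apply {H : Type*} [AddCommGroup H] [Module ℚ H] (E : H → H → ℚ)
    (hE : ∃ B : H →ₗ[ℚ] H →ₗ[ℚ] ℚ, ∀ v w, B v w = E v w) (r : H →ₗ[ℚ] H) (v : Fin 2 → H) :
    BB E hE r v = E (r (v 0)) (v 1) - E (r (v 1)) (v 0) := rfl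

theorem bilin {H T : Type} [AddCommGroup H] [Module ℚ H] [AddCommGroup T] [Module ℂ T]
    {per : H →+ T} {E : H → H → ℚ} (h : IsPolarization per E) :
    ∃ B : H →ₗ[ℚ] H →ₗ[ℚ] ℚ, ∀ v w, B v w = E v w := by
  obtain ⟨Ψ, h1, h2, -, h4⟩ := h
  have a1 : ∀ v v' w, E (v + v') w = E v w + E v' w := by
    intro v v' w
    have h5 : (((E (v + v') w : ℚ)) : ℝ) = ((E v w + E v' w : ℚ) : ℝ) := by
      push_cast
      rw [← h4, ← h4, ← h4, map_add, (h1 _).map_add, Complex.add_im]
    exact_mod_cast h5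
  have a2 : ∀ v w w', E v (w + w') = E v w + E v w' := by
    intro v w w'
    have h5 : (((E v (w + w') : ℚ)) : ℝ) = ((E v w + E v w' : ℚ) : ℝ) := by
      push_cast
      rw [← h4, ← h4, ← h4, map_add, h2, (h1 _).map_add, map_add, ← h2, ← h2, Complex.add_im]
    exact_mod_cast h5
  let f1 : H → (H →+ ℚ) := fun v => AddMonoidHom.mk' (fun w => E v w) (fun w w' => a2 v w w')
  let f2 : H → (H →+ ℚ) := fun w => AddMonoidHom.mk' (fun v => E v w) (fun v v' => a1 v v' w)
  refine ⟨LinearMap.mk₂ ℚ E a1 ?_ a2 ?_, fun v w => rfl⟩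
  · intro c v w
    exact (f2 w).toRatLinearMap.map_smul c v
  · intro c v w
    exact (f1 v).toRatLinearMap.map_smul c w

theorem hodge_BB {X : AV} {E : X.H → X.H → ℚ} (h : IsPolarization X.per E)
    (hE : ∃ B : X.H →ₗ[ℚ] X.H →ₗ[ℚ] ℚ, ∀ v w, B v w = E v w) (r : X.H →ₗ[ℚ] X.H)
    (hr : IsHom X X r) : IsHodge X.per (BB E hE r) := by
  obtain ⟨Ψ, h1, h2, -, h4⟩ := h
  obtain ⟨ρ, hρ⟩ := hr
  have c2 : ∀ (u : X.T) (a b : X.T), Ψ u (a + b) = Ψ u a + Ψ u b := by
    intro u a b
    rw [h2, (h1 _).map_add, map_add, ← h2, ← h2]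
  have c3 : ∀ (u : X.T) (c : ℂ) (a : X.T), Ψ u (c • a) = starRingEnd ℂ c * Ψ u a := by
    intro u c a
    rw [h2, (h1 _).map_smul, smul_eq_mul, map_mul, ← h2]
  have d1 : ∀ (a b u : X.T), Ψ (a + b) u = Ψ a u + Ψ b u := fun a b u => (h1 u).map_add a b
  have d2 : ∀ (c : ℂ) (a u : X.T), Ψ (c • a) u = c * Ψ a u := fun c a u => (h1 u).map_smul c a
  refine ⟨
    { toFun := fun u => (Ψ (ρ (u 0)) (u 1)).im - (Ψ (ρ (u 1)) (u 0)).im
      map_update_add' := ?_
      map_update_smul' := ?_ }, ?_, ?_⟩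
  · intro _ v j x y
    fin_cases j
    · simp [Function.update, map_add, c2, d1]
      ring
    · simp [Function.update, map_add, c2, d1]
      ring
  · intro _ v j c x
    have e1 : ∀ y : X.T, (c • y : X.T) = (c : ℂ) • y := fun y => rfl
    fin_cases j
    · simp only [Function.update, Fin.zero_eta, Fin.isValue, dite_true,
        one_ne_zero, dite_false, e1, map_smul, c3, d2, smul_eq_mul, Complex.conj_ofReal,
        Complex.re_ofReal_mul, Complex.im_ofReal_mul]
      ring
    · simp only [Function.update, Fin.zero_eta, Fin.isValue, dite_true, Fin.mk_one,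
        zero_ne_one, dite_false, e1, map_smul, c3, d2, smul_eq_mul, Complex.conj_ofReal,
        Complex.re_ofReal_mul, Complex.im_ofReal_mul]
      ring
  · intro v
    change (Ψ (ρ (X.per (v 0))) (X.per (v 1))).im - (Ψ (ρ (X.per (v 1))) (X.per (v 0))).im = _
    rw [BB_apply, hρ, hρ, h4, h4]
    push_cast
    rfl
  · intro z hz u
    change (Ψ (ρ (z • u 0)) (z • u 1)).im - (Ψ (ρ (z • u 1)) (z • u 0)).im =
      (Ψ (ρ (u 0)) (u 1)).im - (Ψ (ρ (u 1)) (u 0)).im
    have hzz : z * starRingEnd ℂ z = 1 := by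
      rw [Complex.mul_conj, Complex.normSq_eq_norm_sq, hz]
      norm_num
    have h5 : ∀ a b : X.T, Ψ (ρ (z • a)) (z • b) = Ψ (ρ a) b := by
      intro a b
      rw [map_smul, d2, c3, ← mul_assoc, hzz, one_mul]
    rw [h5, h5]

/-- the Hermitian form of `om` -/
noncomputable def WW {J : Type} {K A : J → Type} {T : Type} [AddCommGroup T] [Module ℂ T]
    [∀ j, Fintype (K j)] (t : Basis (Σ j, K j × A j) ℂ T) (j : J) (α β : A j) (u u' : T) : ℂ :=
  ∑ k : K j, (t.repr u ⟨j, k, α⟩ * starRingEnd ℂ (t.repr u' ⟨j, k, β⟩) +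
    t.repr u ⟨j, k, β⟩ * starRingEnd ℂ (t.repr u' ⟨j, k, α⟩))

theorem WW_conj {J : Type} {K A : J → Type} {T : Type} [AddCommGroup T] [Module ℂ T]
    [∀ j, Fintype (K j)] (t : Basis (Σ j, K j × A j) ℂ T) (j : J) (α β : A j) (u u' : T) :
    WW t j α β u' u = starRingEnd ℂ (WW t j α β u u') := by
  unfold WW
  rw [map_sum]
  refine Finset.sum_congr rfl fun k _ => ?_
  simp only [map_add, map_mul, Complex.conj_conj]
  ring

theorem sum_om {J : Type} {K A : J → Type} {T : Type} [AddCommGroup T] [Module ℂ T]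
    [Fintype J] [∀ j, Fintype (K j)] [∀ j, Fintype (A j)] (t : Basis (Σ j, K j × A j) ℂ T) (j : J)
    (α β : A j) (u u' : T) :
    ∑ s, ∑ s', om j α β s s' * (bet t s u * bet t s' u') = WW t j α β u u' := by
  classical
  unfold om WW
  simp only [Finset.sum_mul, add_mul, ite_mul, one_mul, zero_mul]
  have h1 : ∀ (p q : Co K A), ∑ s : Co K A, ∑ s' : Co K A,
      (if s = p ∧ s' = q then bet t s u * bet t s' u' else 0) = bet t p u * bet t q u' := by
    intro p q
    rw [Finset.sum_eq_single p, Finset.sum_eq_single q]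
    · simp
    · intro b _ hb
      rw [if_neg fun h => hb h.2]
    · intro h
      exact absurd (Finset.mem_univ _) h
    · intro b _ hb
      refine Finset.sum_eq_zero fun c _ => ?_
      rw [if_neg fun h => hb h.1]
    · intro h
      exact absurd (Finset.mem_univ _) h
  calc _ = ∑ s : Co K A, ∑ k : K j, ∑ s' : Co K A,
        ((if s = Sum.inl ⟨j, k, α⟩ ∧ s' = Sum.inr ⟨j, k, β⟩ then bet t s u * bet t s' u' else 0) +
        (if s = Sum.inl ⟨j, k, β⟩ ∧ s' = Sum.inr ⟨j, k, α⟩ then bet t s u * bet t s' u' else 0)) := by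
        refine Finset.sum_congr rfl fun s _ => ?_
        rw [Finset.sum_comm]
    _ = ∑ k : K j, ∑ s : Co K A, ∑ s' : Co K A,
        ((if s = Sum.inl ⟨j, k, α⟩ ∧ s' = Sum.inr ⟨j, k, β⟩ then bet t s u * bet t s' u' else 0) +
        (if s = Sum.inl ⟨j, k, β⟩ ∧ s' = Sum.inr ⟨j, k, α⟩ then bet t s u * bet t s' u' else 0)) :=
        Finset.sum_comm
    _ = _ := by
        refine Finset.sum_congr rfl fun k _ => ?_
        simp only [Finset.sum_add_distrib]
        rw [h1, h1]
        rfl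

theorem t_Q_DIV : Q_DIV := by
  classical
  intro X E R hR J K A _ _ _ t mat hA j α β
  have hE := bilin hR.pol
  -- the family of matrices
  let N : ∀ j, Matrix (A j) (A j) ℝ := Pi.single j (Matrix.single α β 1 + Matrix.single β α 1)
  obtain ⟨c, hc⟩ := (Finsupp.mem_span_range_iff_exists_finsupp).1 (hA.full N)
  refine ⟨c.support, inferInstance, fun l => Complex.I * (c l.1 : ℂ), fun l => BB E hE l.1.1,
    fun l => hodge_BB hR.pol hE _ (hR.hom _ l.1.2), fun v => ?_⟩
  -- the right side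
  have r1 : ∑ s, ∑ s', om j α β s s' * (bet t s (X.per (v 0)) * bet t s' (X.per (v 1)) -
            bet t s (X.per (v 1)) * bet t s' (X.per (v 0))) =
      WW t j α β (X.per (v 0)) (X.per (v 1)) - WW t j α β (X.per (v 1)) (X.per (v 0)) := by
    rw [← sum_om, ← sum_om, ← Finset.sum_sub_distrib]
    refine Finset.sum_congr rfl fun s _ => ?_
    rw [← Finset.sum_sub_distrib]
    exact Finset.sum_congr rfl fun s' _ => mul_sub _ _ _
  -- the left side
  have r2 : ∀ v w : X.H, ∑ l ∈ c.support, (c l : ℝ) * ((E (l.1 v) w : ℚ) : ℝ) =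
      (WW t j α β (X.per v) (X.per w)).im := by
    intro v w
    have s1 : ∀ l ∈ c.support, (c l : ℝ) * ((E (l.1 v) w : ℚ) : ℝ) =
        (∑ s : (Σ j, K j × A j), ∑ β' : A s.1, ((c l * mat l s.1 s.2.2 β' : ℝ) : ℂ) *
          (t.repr (X.per v) ⟨s.1, s.2.1, β'⟩ * starRingEnd ℂ (t.repr (X.per w) s))).im := by
      intro l _
      rw [hA.pol, ← Complex.im_ofReal_mul, Finset.mul_sum]
      congr 1
      refine Finset.sum_congr rfl fun s _ => ?_
      obtain ⟨j', k, α'⟩ := s
      rw [hA.act l v j' k α', Finset.sum_mul, Finset.mul_sum]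
      refine Finset.sum_congr rfl fun β' _ => ?_
      push_cast
      ring
    rw [Finset.sum_congr rfl s1, ← Complex.im_sum, Finset.sum_comm]
    congr 1
    have s2 : ∀ s : (Σ j, K j × A j), ∑ l ∈ c.support, ∑ β' : A s.1,
        ((c l * mat l s.1 s.2.2 β' : ℝ) : ℂ) *
          (t.repr (X.per v) ⟨s.1, s.2.1, β'⟩ * starRingEnd ℂ (t.repr (X.per w) s)) =
        ∑ β' : A s.1, ((N s.1 s.2.2 β' : ℝ) : ℂ) *
          (t.repr (X.per v) ⟨s.1, s.2.1, β'⟩ * starRingEnd ℂ (t.repr (X.per w) s)) := by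
      intro s
      rw [Finset.sum_comm]
      refine Finset.sum_congr rfl fun β' _ => ?_
      rw [← Finset.sum_mul]
      congr 1
      rw [← hc, Finsupp.sum, Finset.sum_apply, Matrix.sum_apply]
      push_cast
      refine Finset.sum_congr rfl fun l _ => ?_
      rw [Pi.smul_apply, Matrix.smul_apply, smul_eq_mul]
      push_cast
      rfl
    rw [Finset.sum_congr rfl fun s _ => s2 s, Fintype.sum_sigma]
    rw [Finset.sum_eq_single j]
    · unfold WW
      rw [Fintype.sum_prod_type]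
      refine Finset.sum_congr rfl fun k _ => ?_
      have s3 : ∀ α' β' : A j, N j α' β' = (if α = α' ∧ β = β' then 1 else 0) +
          (if β = α' ∧ α = β' then 1 else 0) := by
        intro α' β'
        simp only [N, Pi.single_eq_same, Matrix.add_apply, Matrix.single_apply]
      simp only [s3]
      push_cast
      simp only [add_mul, Finset.sum_add_distrib]
      have s4 : ∀ (p q : A j) (F : A j → A j → ℂ),
          ∑ x : A j, ∑ y : A j, ((if p = x ∧ q = y then 1 else 0 : ℝ) : ℂ) * F x y = F p q := by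
        intro p q F
        rw [Finset.sum_eq_single p, Finset.sum_eq_single q]
        · simp
        · intro b _ hb
          rw [if_neg fun h => hb h.2.symm, Complex.ofReal_zero, zero_mul]
        · intro h
          exact absurd (Finset.mem_univ _) h
        · intro b _ hb
          refine Finset.sum_eq_zero fun c _ => ?_
          rw [if_neg fun h => hb h.1.symm, Complex.ofReal_zero, zero_mul]
        · intro h
          exact absurd (Finset.mem_univ _) h
      rw [s4 α β (fun x y => t.repr (X.per v) ⟨j, (k, y)⟩ *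
          starRingEnd ℂ (t.repr (X.per w) ⟨j, (k, x)⟩)),
        s4 β α (fun x y => t.repr (X.per v) ⟨j, (k, y)⟩ *
          starRingEnd ℂ (t.repr (X.per w) ⟨j, (k, x)⟩)), add_comm]
    · intro j' _ hj'
      refine Finset.sum_eq_zero fun s _ => Finset.sum_eq_zero fun β' _ => ?_
      simp only [N]
      rw [Pi.single_eq_of_ne hj']
      simp
    · intro h
      exact absurd (Finset.mem_univ _) h
  rw [r1, WW_conj t j α β (X.per (v 0)) (X.per (v 1))]
  have r3 : WW t j α β (X.per (v 0)) (X.per (v 1)) -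
      starRingEnd ℂ (WW t j α β (X.per (v 0)) (X.per (v 1))) =
      2 * Complex.I * ((WW t j α β (X.per (v 0)) (X.per (v 1))).im : ℂ) := by
    rw [Complex.sub_conj]
    push_cast
    ring
  rw [r3]
  have r4 : ∑ l ∈ c.support, (c l : ℝ) * ((BB E hE l.1 v : ℚ) : ℝ) =
      2 * (WW t j α β (X.per (v 0)) (X.per (v 1))).im := by
    have : ∀ l ∈ c.support, (c l : ℝ) * ((BB E hE l.1 v : ℚ) : ℝ) =
        (c l : ℝ) * ((E (l.1 (v 0)) (v 1) : ℚ) : ℝ) - (c l : ℝ) * ((E (l.1 (v 1)) (v 0) : ℚ) : ℝ) := by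
      intro l _
      rw [BB_apply]
      push_cast
      ring
    rw [Finset.sum_congr rfl this, Finset.sum_sub_distrib, r2, r2,
      WW_conj t j α β (X.per (v 0)) (X.per (v 1)), Complex.conj_im]
    ring
  have r5 : ∑ l : c.support, Complex.I * ((c l.1 : ℝ) : ℂ) * ((BB E hE l.1.1 v : ℚ) : ℂ) =
      Complex.I * ((∑ l ∈ c.support, (c l : ℝ) * ((BB E hE l.1 v : ℚ) : ℝ) : ℝ) : ℂ) := by
    rw [Finset.sum_coe_sort c.support (fun l : R => Complex.I * ((c l : ℝ) : ℂ) * ((BB E hE l.1 v : ℚ) : ℂ))]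
    push_cast
    rw [Finset.mul_sum]
    exact Finset.sum_congr rfl fun l _ => mul_assoc _ _ _
  rw [r5, r4]
  push_cast
  ring

end Pool.Agent.T2h66.Q15.DIV
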