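import Pool.Agent.Z15.Q.Stm

/-!
The forms of the arrays in `Gen` (task Q_SPAN of helper15).
-/

set_option autoImplicit false

namespace Pool.Agent.T2h66.Q15.SPAN

open Module Pool.Agent.Y90 Pool.Agent.W546.GHC Pool.Agent.H204R3.CM Pool.Agent.Z15.Q

section arr

variable {J : Type} {K A : J → Type}

theorem anti_zero {i : ℕ} : Anti (0 : Arr K A i) := fun σ b => by simp

theorem anti_add {i : ℕ} {a a' : Arr K A i} (h : Anti a) (h' : Anti a') : Anti (a + a') := by
  intro σ b
  rw [Pi.add_apply, Pi.add_apply, h, h', mul_add]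

theorem anti_smul {i : ℕ} {a : Arr K A i} (h : Anti a) (c : ℂ) : Anti (c • a) := by
  intro σ b
  rw [Pi.smul_apply, Pi.smul_apply, h, smul_eq_mul, smul_eq_mul]
  ring

theorem anti_wdg {i : ℕ} (ω : Co K A → Co K A → ℂ) (η : Arr K A i) : Anti (wdg ω η) := by
  intro τ b
  unfold wdg
  rw [Finset.mul_sum]
  refine Fintype.sum_equiv (Equiv.mulLeft τ) _ _ fun σ => ?_
  rw [Equiv.coe_mulLeft, Equiv.Perm.sign_mul, Units.val_mul, Int.cast_mul]
  have h1 : ((Equiv.Perm.sign τ : ℤ) : ℂ) * ((Equiv.Perm.sign τ : ℤ) : ℂ) = 1 := by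
    rcases Int.units_eq_one_or (Equiv.Perm.sign τ) with h | h <;> rw [h] <;> simp
  have h2 : ∀ x y z : ℂ, x * x = 1 → x * ((x * y) * z) = y * z := by
    intro x y z h
    linear_combination (y * z) * h
  rw [h2 _ _ _ h1]
  rfl

theorem anti_gen [∀ j, Fintype (K j)] : ∀ (c i : ℕ) (a : Arr K A i), a ∈ Gen c i → Anti a
  | 0, i, a, h => by
    unfold Gen at h
    induction h using Submodule.span_induction with
    | mem x hx => exact hx
    | zero => exact anti_zero
    | add x y _ _ hx hy => exact anti_add hx hy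
    | smul c x _ hx => exact anti_smul hx c
  | c + 1, i + 2, a, h => by
    unfold Gen at h
    induction h using Submodule.span_induction with
    | mem x hx =>
      obtain ⟨j, α, β, η, -, rfl⟩ := hx
      exact anti_wdg _ _
    | zero => exact anti_zero
    | add x y _ _ hx hy => exact anti_add hx hy
    | smul c x _ hx => exact anti_smul hx c
  | c + 1, 0, a, h => by
    unfold Gen at h
    rw [Submodule.mem_bot] at h
    rw [h]
    exact anti_zero
  | c + 1, 1, a, h => by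
    unfold Gen at h
    rw [Submodule.mem_bot] at h
    rw [h]
    exact anti_zero

theorem sum_cons {n : ℕ} {S : Type} [Fintype S] (G : (Fin (n + 1) → S) → ℂ) :
    ∑ b, G b = ∑ s, ∑ b', G (Fin.cons s b') := by
  rw [← (Fin.consEquiv (fun _ => S)).sum_comp, Fintype.sum_prod_type]
  rfl

variable [Fintype J] [∀ j, Fintype (K j)] [∀ j, Fintype (A j)] {T : Type} [AddCommGroup T]
  [Module ℂ T]

theorem form_wdg (t : Basis (Σ j, K j × A j) ℂ T) {i : ℕ} (ω : Co K A → Co K A → ℂ)
    (η : Arr K A i) (u : Fin (i + 2) → T) :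
    ∑ b : Fin (i + 2) → Co K A, wdg ω η b * ∏ m, bet t (b m) (u m) =
      ∑ σ : Equiv.Perm (Fin (i + 2)), ((Equiv.Perm.sign σ : ℤ) : ℂ) *
        ((∑ s, ∑ s', ω s s' * (bet t s (u (σ 0)) * bet t s' (u (σ 1)))) *
          ∑ b : Fin i → Co K A, η b * ∏ m, bet t (b m) (u (σ m.succ.succ))) := by
  unfold wdg
  simp only [Finset.sum_mul]
  rw [Finset.sum_comm]
  refine Finset.sum_congr rfl fun σ _ => ?_
  have h1 : ∑ b : Fin (i + 2) → Co K A, ((Equiv.Perm.sign σ : ℤ) : ℂ) *
      (ω (b (σ 0)) (b (σ 1)) * η (fun m => b (σ m.succ.succ))) * ∏ m, bet t (b m) (u m) =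
      ∑ b : Fin (i + 2) → Co K A, ((Equiv.Perm.sign σ : ℤ) : ℂ) *
      (ω (b 0) (b 1) * η (fun m => b m.succ.succ)) * ∏ m, bet t (b m) (u (σ m)) := by
    refine Fintype.sum_equiv (Equiv.arrowCongr σ.symm (Equiv.refl _)) _ _ fun b => ?_
    have h2 : ∏ m, bet t (b m) (u m) = ∏ m, bet t (b (σ m)) (u (σ m)) :=
      (Equiv.prod_comp σ fun m => bet t (b m) (u m)).symm
    rw [h2]
    rfl
  rw [h1, sum_cons, Finset.mul_sum]
  refine Finset.sum_congr rfl fun s _ => ?_
  rw [sum_cons]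
  simp only [Finset.mul_sum]
  refine Finset.sum_congr rfl fun s' _ => ?_
  refine Finset.sum_congr rfl fun b _ => ?_
  rw [Fin.prod_univ_succ, Fin.prod_univ_succ]
  simp only [Fin.cons_zero, Fin.cons_succ, Fin.succ_zero_eq_one, Fin.cons_one]
  ring

end arr

theorem sum_app {T : Type*} [AddCommGroup T] [Module ℂ T] {α : Type*} {i : ℕ} (s : Finset α)
    (F : α → T [⋀^Fin i]→ₗ[ℝ] ℂ) (u : Fin i → T) : (∑ a ∈ s, F a) u = ∑ a ∈ s, F a u := by
  classical
  induction s using Finset.induction_on with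
  | empty => simp
  | insert a s ha ih => rw [Finset.sum_insert ha, Finset.sum_insert ha, AlternatingMap.add_apply, ih]

/-- exchange of the first two variables -/
theorem swap_sum {H : Type} {i : ℕ} (W : H → H → ℂ) (F : (Fin i → H) → ℂ)
    (v : Fin (i + 2) → H) :
    ∑ σ : Equiv.Perm (Fin (i + 2)), ((Equiv.Perm.sign σ : ℤ) : ℂ) *
      (W (v (σ 1)) (v (σ 0)) * F (fun m => v (σ m.succ.succ))) =
    -∑ σ : Equiv.Perm (Fin (i + 2)), ((Equiv.Perm.sign σ : ℤ) : ℂ) *
      (W (v (σ 0)) (v (σ 1)) * F (fun m => v (σ m.succ.succ))) := by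
  rw [← Finset.sum_neg_distrib]
  refine Fintype.sum_equiv (Equiv.mulRight (Equiv.swap 0 1)) _ _ fun σ => ?_
  have h01 : (0 : Fin (i + 2)) ≠ 1 := by
    intro h
    exact absurd (congrArg Fin.val h) (by simp)
  rw [Equiv.coe_mulRight, Equiv.Perm.sign_mul, Equiv.Perm.sign_swap h01]
  simp only [Equiv.Perm.mul_apply, Equiv.swap_apply_left, Equiv.swap_apply_right]
  have h2 : ∀ m : Fin i, Equiv.swap (0 : Fin (i + 2)) 1 m.succ.succ = m.succ.succ := by
    intro m
    refine Equiv.swap_apply_of_ne_of_ne (Fin.succ_ne_zero _) ?_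
    intro h
    have := congrArg Fin.val h
    simp at this
  simp only [h2]
  push_cast
  ring

theorem step (hX : Q_EXT) (hQ : Q_WDG) (X : AV) (i c : ℕ) (L : Type) [Fintype L] (x : L → ℂ)
    (B : L → X.H [⋀^Fin 2]→ₗ[ℚ] ℚ) (hB : ∀ l, IsHodge X.per (B l)) (W : X.H → X.H → ℂ)
    (hW : ∀ v : Fin 2 → X.H, ∑ l, x l * ((B l v : ℚ) : ℂ) = W (v 0) (v 1) - W (v 1) (v 0)) :
    ∀ ψ ∈ complexify X.per (Submodule.span ℚ (divisorProducts X.per i c)),
      ∃ φ ∈ complexify X.per (Submodule.span ℚ (divisorProducts X.per (i + 2) (c + 1))),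
        ∀ v : Fin (i + 2) → X.H, φ (fun l => X.per (v l)) =
          ∑ σ : Equiv.Perm (Fin (i + 2)), ((Equiv.Perm.sign σ : ℤ) : ℂ) *
            (W (v (σ 0)) (v (σ 1)) * ψ (fun m => X.per (v (σ m.succ.succ)))) := by
  intro ψ hψ
  conv at hψ => unfold complexify
  induction hψ using Submodule.span_induction with
  | mem ψ hψ =>
    obtain ⟨g, hg, hgψ⟩ := hψ
    choose G hG1 hG2 using fun l => (hQ X i).2 c (B l) (hB l) g hg
    choose Φ hΦ using fun l => (hX X (i + 2)).1 (G l)
    refine ⟨∑ l, (x l / 2) • Φ l, Submodule.sum_mem _ fun l _ => Submodule.smul_mem _ _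
      (Submodule.subset_span ⟨G l, hG1 l, hΦ l⟩), fun v => ?_⟩
    rw [sum_app]
    have h1 : ∀ l ∈ (Finset.univ : Finset L), ((x l / 2) • Φ l) (fun k => X.per (v k)) =
        ∑ σ : Equiv.Perm (Fin (i + 2)), 1 / 2 * (((Equiv.Perm.sign σ : ℤ) : ℂ) *
          ((x l * ((B l ![v (σ 0), v (σ 1)] : ℚ) : ℂ)) *
            ψ (fun m => X.per (v (σ m.succ.succ))))) := by
      intro l _
      rw [AlternatingMap.smul_apply, hΦ l v, hG2 l v, smul_eq_mul]
      push_cast
      rw [Finset.mul_sum]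
      refine Finset.sum_congr rfl fun σ _ => ?_
      rw [hgψ (fun m => v (σ m.succ.succ))]
      ring
    rw [Finset.sum_congr rfl h1, Finset.sum_comm]
    have h2 : ∀ σ : Equiv.Perm (Fin (i + 2)), ∑ l : L, 1 / 2 * (((Equiv.Perm.sign σ : ℤ) : ℂ) *
          ((x l * ((B l ![v (σ 0), v (σ 1)] : ℚ) : ℂ)) *
            ψ (fun m => X.per (v (σ m.succ.succ))))) =
        1 / 2 * (((Equiv.Perm.sign σ : ℤ) : ℂ) *
          (W (v (σ 0)) (v (σ 1)) * ψ (fun m => X.per (v (σ m.succ.succ))))) -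
        1 / 2 * (((Equiv.Perm.sign σ : ℤ) : ℂ) *
          (W (v (σ 1)) (v (σ 0)) * ψ (fun m => X.per (v (σ m.succ.succ))))) := by
      intro σ
      rw [← Finset.mul_sum, ← Finset.mul_sum, ← Finset.sum_mul, hW]
      change 1 / 2 * (_ * ((W (v (σ 0)) (v (σ 1)) - W (v (σ 1)) (v (σ 0))) * _)) = _
      ring
    rw [Finset.sum_congr rfl fun σ _ => h2 σ, Finset.sum_sub_distrib, ← Finset.mul_sum,
      ← Finset.mul_sum, swap_sum W (fun w => ψ (fun m => X.per (w m))) v]
    ring
  | zero =>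
    refine ⟨0, Submodule.zero_mem _, fun v => ?_⟩
    simp
  | add a b _ _ ha hb =>
    obtain ⟨φ, h1, h2⟩ := ha
    obtain ⟨φ', h1', h2'⟩ := hb
    refine ⟨φ + φ', Submodule.add_mem _ h1 h1', fun v => ?_⟩
    rw [AlternatingMap.add_apply, h2, h2', ← Finset.sum_add_distrib]
    refine Finset.sum_congr rfl fun σ _ => ?_
    rw [AlternatingMap.add_apply]
    ring
  | smul r a _ ha =>
    obtain ⟨φ, h1, h2⟩ := ha
    refine ⟨r • φ, Submodule.smul_mem _ _ h1, fun v => ?_⟩
    rw [AlternatingMap.smul_apply, h2, smul_eq_mul, Finset.mul_sum]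
    refine Finset.sum_congr rfl fun σ _ => ?_
    rw [AlternatingMap.smul_apply, smul_eq_mul]
    ring

theorem span_aux (hF : Q_FORM) (hD : Q_DIV) (hQ : Q_WDG) (hX : Q_EXT) (X : AV)
    (E : X.H → X.H → ℚ) (R : Subalgebra ℚ (Module.End ℚ X.H)) (hR : RealType X E R)
    (J : Type) (K A : J → Type) [Fintype J] [∀ j, Fintype (K j)] [∀ j, Fintype (A j)]
    (t : Basis (Σ j, K j × A j) ℂ X.T) (mat : R → ∀ j, Matrix (A j) (A j) ℝ)
    (hA : Adapted X E R t mat) : ∀ (c i : ℕ) (a : Arr K A i), a ∈ Gen c i →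
      ∀ φ : X.T [⋀^Fin i]→ₗ[ℝ] ℂ, (∀ v : Fin i → X.T, φ v = ∑ b : Fin i → Co K A, a b *
        ∏ m, bet t (b m) (v m)) →
        φ ∈ complexify X.per (Submodule.span ℚ (divisorProducts X.per i c))
  | 0, i, a, _ => fun φ _ => by
    rw [(hQ X i).1, (hX X i).2.2.1]
    exact Submodule.mem_top
  | c + 1, 0, a, h => fun φ hφ => by
    unfold Gen at h
    rw [Submodule.mem_bot] at h
    have : φ = 0 := by
      ext v
      rw [hφ, h]
      simp
    rw [this]
    exact Submodule.zero_mem _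
  | c + 1, 1, a, h => fun φ hφ => by
    unfold Gen at h
    rw [Submodule.mem_bot] at h
    have : φ = 0 := by
      ext v
      rw [hφ, h]
      simp
    rw [this]
    exact Submodule.zero_mem _
  | c + 1, i + 2, a, h => by
    unfold Gen at h
    induction h using Submodule.span_induction with
    | mem x hx =>
      obtain ⟨j, α, β, η, hη, rfl⟩ := hx
      intro φ hφ
      obtain ⟨ψ, -, hψ⟩ := (hF J K A X.T t i).2.2 η (anti_gen c i η hη)
      have hψ1 := span_aux hF hD hQ hX X E R hR J K A t mat hA c i η hη ψ hψ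
      obtain ⟨L, hL, x, B, hB, hBv⟩ := hD X E R hR J K A t mat hA j α β
      obtain ⟨φ', h1, h2⟩ := step hX hQ X i c L x B hB
        (fun v w => ∑ s, ∑ s', om j α β s s' * (bet t s (X.per v) * bet t s' (X.per w)))
        (fun v => by
          rw [hBv v, ← Finset.sum_sub_distrib]
          refine Finset.sum_congr rfl fun s _ => ?_
          rw [← Finset.sum_sub_distrib]
          exact Finset.sum_congr rfl fun s' _ => mul_sub _ _ _) ψ hψ1
      have h3 : φ = φ' := by
        refine (hX X (i + 2)).2.1 φ φ' fun w => ?_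
        rw [h2, hφ, form_wdg]
        refine Finset.sum_congr rfl fun σ _ => ?_
        rw [hψ]
      rw [h3]
      exact h1
    | zero =>
      intro φ hφ
      have : φ = 0 := by
        ext v
        rw [hφ]
        simp
      rw [this]
      exact Submodule.zero_mem _
    | add x y hx hy ihx ihy =>
      intro φ hφ
      obtain ⟨φ1, -, h1⟩ := (hF J K A X.T t (i + 2)).2.2 x
        (anti_gen (c + 1) (i + 2) x (by unfold Gen; exact hx))
      obtain ⟨φ2, -, h2⟩ := (hF J K A X.T t (i + 2)).2.2 y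
        (anti_gen (c + 1) (i + 2) y (by unfold Gen; exact hy))
      have : φ = φ1 + φ2 := by
        ext v
        rw [hφ, AlternatingMap.add_apply, h1, h2, ← Finset.sum_add_distrib]
        exact Finset.sum_congr rfl fun b _ => by rw [Pi.add_apply, add_mul]
      rw [this]
      exact Submodule.add_mem _ (ihx φ1 h1) (ihy φ2 h2)
    | smul r x hx ihx =>
      intro φ hφ
      obtain ⟨φ1, -, h1⟩ := (hF J K A X.T t (i + 2)).2.2 x
        (anti_gen (c + 1) (i + 2) x (by unfold Gen; exact hx))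
      have : φ = r • φ1 := by
        ext v
        rw [hφ, AlternatingMap.smul_apply, h1, smul_eq_mul, Finset.mul_sum]
        exact Finset.sum_congr rfl fun b _ => by rw [Pi.smul_apply, smul_eq_mul, mul_assoc]
      rw [this]
      exact Submodule.smul_mem _ _ (ihx φ1 h1)

theorem t_Q_SPAN : Q_SPANi := by
  intro hF hD hQ hX X E R hR J K A _ _ _ t mat hA c i a ha φ hφ
  exact span_aux hF hD hQ hX X E R hR J K A t mat hA c i a ha φ hφ.2

end Pool.Agent.T2h66.Q15.SPAN
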